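import Pool.Agent.H85.MK.Exist

/-!
# Metrizable precompact Mackey topologies on countable abelian groups

A metrizable precompact group topology on a countable abelian group `G` is Mackey if and only if `G` has
bounded exponent. Such a topology always exists; it has proper open subgroups if `G` has bounded
exponent and is not trivial. So no nontrivial countable abelian group has a metrizable precompact Mackey
group topology without proper open subgroups; for `G = ℤ` this is the answer to Q1.

The definitions (`Tplus`, `QuasiConvex`, `LocallyQuasiConvex`, `Compatible`, `PrecompactTop`, `Mackey`)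
are in `Pool.Agent.H85.MK.Basic`; `T = ℝ/ℤ`.

Proof for unbounded exponent. Let `H` be the countable group of the continuous characters. One finds
`h n ∈ H`, tending to zero fast on larger and larger finite sets of a suitable exhaustion of `G`, and
`t n ∈ G`, small for the first characters, with `‖h n (t n)‖` about `1 / n`; if this were impossible
then `M • H` would be finite for some `M ≥ 1`. The finer topology is the join of `τ` and the topology of
uniform convergence on the sequence `h`. Every element of `G` that is small for the first characters is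
a sum of boundedly many elements of each level, and the values of a continuous character of the join on
the levels are summable; so this character is continuous for `τ`.
-/

set_option autoImplicit false

open Filter Topology Pointwise Pool.Agent.H85.MK

namespace Pool.Agent.Results.MP_44d3b9_gt.CountableGroups

universe u

theorem bounded_of_mackey {G : Type u} [AddCommGroup G] [Countable G] (τ : TopologicalSpace G)
    (h1 : @IsTopologicalAddGroup G τ _) (h2 : @TopologicalSpace.MetrizableSpace G τ)
    (h3 : PrecompactTop τ) (h4 : Mackey τ) : ∃ M : ℕ, 1 ≤ M ∧ ∀ g : G, M • g = 0 := by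
  by_contra hcon
  push Not at hcon
  obtain ⟨σ, s1, s2, s3, s4, -, s6⟩ := exists_finer (fun M hM => hcon M hM) τ h1 h2 h3 h4.1
  exact s6 (h4.2 σ s1 s2 s3 s4)

theorem no_mackey {G : Type u} [AddCommGroup G] [Countable G] [Nontrivial G] :
    ¬ ∃ τ : TopologicalSpace G, @IsTopologicalAddGroup G τ _ ∧
      @TopologicalSpace.MetrizableSpace G τ ∧ PrecompactTop τ ∧ Mackey τ ∧
      ∀ K : AddSubgroup G, @IsOpen G τ (K : Set G) → K = ⊤ := by
  rintro ⟨τ, h1, h2, h3, h4, h5⟩
  obtain ⟨M, hM, hG⟩ := bounded_of_mackey τ h1 h2 h3 h4
  obtain ⟨K, hK, hKo⟩ := exists_open hM hG τ h1 (@TopologicalSpace.t2Space_of_metrizableSpace G τ h2)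
    h3 h4.1
  exact hK (h5 K hKo)

/-- **Metrizable precompact Mackey topologies on countable abelian groups.**

(1) A metrizable precompact (locally quasi-convex) group topology on a countable abelian group `G` is
Mackey if and only if `G` has bounded exponent.
(2) If a countable abelian group does not have bounded exponent then each of its metrizable precompact
(locally quasi-convex) group topologies has a strictly finer Hausdorff locally quasi-convex group
topology with the same continuous characters.
(3) A countable abelian group has a metrizable precompact Mackey group topology if and only if it has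
bounded exponent.
(4) No nontrivial countable abelian group has a metrizable precompact Mackey group topology without
proper open subgroups; (5) in particular `ℤ` has none.
(6) Every metrizable precompact (locally quasi-convex) group topology on an abelian group of bounded
exponent, of any cardinality, is Mackey. -/
theorem result :
    (∀ (G : Type u) [AddCommGroup G] [Countable G] (τ : TopologicalSpace G),
      @IsTopologicalAddGroup G τ _ → @TopologicalSpace.MetrizableSpace G τ → PrecompactTop τ →
      LocallyQuasiConvex τ → (Mackey τ ↔ ∃ M : ℕ, 1 ≤ M ∧ ∀ g : G, M • g = 0)) ∧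
    (∀ (G : Type u) [AddCommGroup G] [Countable G], (¬ ∃ M : ℕ, 1 ≤ M ∧ ∀ g : G, M • g = 0) →
      ∀ τ : TopologicalSpace G, @IsTopologicalAddGroup G τ _ →
      @TopologicalSpace.MetrizableSpace G τ → PrecompactTop τ → LocallyQuasiConvex τ →
      ∃ σ : TopologicalSpace G, @IsTopologicalAddGroup G σ _ ∧ @T2Space G σ ∧
        LocallyQuasiConvex σ ∧ Compatible σ τ ∧ σ ≤ τ ∧ ¬ τ ≤ σ) ∧
    (∀ (G : Type u) [AddCommGroup G] [Countable G],
      (∃ τ : TopologicalSpace G, @IsTopologicalAddGroup G τ _ ∧
        @TopologicalSpace.MetrizableSpace G τ ∧ PrecompactTop τ ∧ Mackey τ) ↔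
      ∃ M : ℕ, 1 ≤ M ∧ ∀ g : G, M • g = 0) ∧
    (∀ (G : Type u) [AddCommGroup G] [Countable G] [Nontrivial G],
      ¬ ∃ τ : TopologicalSpace G, @IsTopologicalAddGroup G τ _ ∧
        @TopologicalSpace.MetrizableSpace G τ ∧ PrecompactTop τ ∧ Mackey τ ∧
        ∀ K : AddSubgroup G, @IsOpen G τ (K : Set G) → K = ⊤) ∧
    (¬ ∃ τ : TopologicalSpace ℤ, @IsTopologicalAddGroup ℤ τ _ ∧
        @TopologicalSpace.MetrizableSpace ℤ τ ∧ PrecompactTop τ ∧ Mackey τ ∧
        ∀ K : AddSubgroup ℤ, @IsOpen ℤ τ (K : Set ℤ) → K = ⊤) ∧
    (∀ (G : Type u) [AddCommGroup G] (M : ℕ), 1 ≤ M → (∀ g : G, M • g = 0) →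
      ∀ τ : TopologicalSpace G, @IsTopologicalAddGroup G τ _ →
      @TopologicalSpace.MetrizableSpace G τ → PrecompactTop τ → LocallyQuasiConvex τ → Mackey τ) := by
  refine ⟨?_, ?_, ?_, ?_, no_mackey, ?_⟩
  · intro G _ _ τ h1 h2 h3 h4
    refine ⟨bounded_of_mackey τ h1 h2 h3, ?_⟩
    rintro ⟨M, hM, hG⟩
    exact mackey_of_bounded hM hG τ h1 h2 h3 h4
  · intro G _ _ hub τ h1 h2 h3 h4
    refine exists_finer (fun M hM => ?_) τ h1 h2 h3 h4
    by_contra hcon
    push Not at hcon
    exact hub ⟨M, hM, hcon⟩
  · intro G _ _
    constructor
    · rintro ⟨τ, h1, h2, h3, h4⟩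
      exact bounded_of_mackey τ h1 h2 h3 h4
    · rintro ⟨M, hM, hG⟩
      obtain ⟨τ, h1, h2, h3, h4⟩ := exists_precompact G
      exact ⟨τ, h1, h2, h3, mackey_of_bounded hM hG τ h1 h2 h3 h4⟩
  · intro G _ _ _
    exact no_mackey
  · intro G _ M hM hG τ h1 h2 h3 h4
    exact mackey_of_bounded hM hG τ h1 h2 h3 h4

end Pool.Agent.Results.MP_44d3b9_gt.CountableGroups
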